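import Mathlib
set_option autoImplicit false
open MeasureTheory ProbabilityTheory Finset
open scoped ENNReal NNReal

namespace Pool.Agent.H727.FCTMM

instance instExpOne : IsProbabilityMeasure (expMeasure 1) := isProbabilityMeasure_expMeasure one_pos

noncomputable def tm (ρ s : ℝ) : ℝ := -Real.log (1 - ρ * (1 - Real.exp (-s)))

theorem meas_tm (ρ : ℝ) : Measurable (tm ρ) := by
  unfold tm
  fun_prop

theorem exp_Iic (x : ℝ) : expMeasure 1 (Set.Iic x) = ENNReal.ofReal (if 0 ≤ x then 1 - Real.exp (-x) else 0) := by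
  rw [← ofReal_cdf, cdf_expMeasure_eq one_pos, one_mul]

theorem exp_Iio0 : expMeasure 1 (Set.Iio 0) = 0 := by
  have h : Set.Iio (0:ℝ) ⊆ Set.Iic 0 := Set.Iio_subset_Iic_self
  apply measure_mono_null h
  rw [exp_Iic]
  simp

/-- the one-dimensional statement for the generating sets -/
theorem core_Iic (t t' b : ℝ) (ht : 0 < t) (htt : t ≤ t') :
    ENNReal.ofReal ((1 - Real.exp (-t)) / (1 - Real.exp (-t'))) *
      expMeasure 1 {x | x ≤ t' ∧ tm ((1 - Real.exp (-t)) / (1 - Real.exp (-t'))) x ≤ b} =
      expMeasure 1 (Set.Iic (min b t)) := by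
  set A := 1 - Real.exp (-t) with hA
  set A' := 1 - Real.exp (-t') with hA'
  have hApos : 0 < A := by
    have : Real.exp (-t) < 1 := by rw [Real.exp_lt_one_iff]; linarith
    linarith
  have hAA : A ≤ A' := by
    have : Real.exp (-t') ≤ Real.exp (-t) := Real.exp_le_exp.2 (by linarith)
    linarith
  have hA'pos : 0 < A' := lt_of_lt_of_le hApos hAA
  have hA'1 : A' < 1 := by
    have : 0 < Real.exp (-t') := Real.exp_pos _
    linarith
  set ρ := A / A' with hρ
  have hρpos : 0 < ρ := div_pos hApos hA'pos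
  have hρ1 : ρ ≤ 1 := (div_le_one hA'pos).2 hAA
  -- for `x ≥ 0`: the argument of the logarithm
  have harg : ∀ x : ℝ, 0 < 1 - ρ * (1 - Real.exp (-x)) := by
    intro x
    have h1 : 0 < Real.exp (-x) := Real.exp_pos _
    nlinarith
  have htm : ∀ x b : ℝ, tm ρ x ≤ b ↔ ρ * (1 - Real.exp (-x)) ≤ 1 - Real.exp (-b) := by
    intro x b
    unfold tm
    rw [neg_le, Real.le_log_iff_exp_le (harg x)]
    constructor <;> intro h <;> linarith
  set b' := min b t with hb'
  have hset : ∀ x : ℝ, 0 ≤ x → ((x ≤ t' ∧ tm ρ x ≤ b) ↔ (ρ * (1 - Real.exp (-x)) ≤ 1 - Real.exp (-b'))) := by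
    intro x hx
    have h1 : x ≤ t' ↔ tm ρ x ≤ t := by
      rw [htm]
      have e1 : ρ * A' = A := by rw [hρ]; field_simp
      constructor
      · intro h
        have h2 : Real.exp (-t') ≤ Real.exp (-x) := Real.exp_le_exp.2 (by linarith)
        have h3 : ρ * (1 - Real.exp (-x)) ≤ ρ * A' := by
          apply mul_le_mul_of_nonneg_left _ hρpos.le
          rw [hA']; linarith
        linarith
      · intro h
        have h2 : ρ * (1 - Real.exp (-x)) ≤ ρ * A' := by linarith
        have h3 := le_of_mul_le_mul_left h2 hρpos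
        have h4 : Real.exp (-t') ≤ Real.exp (-x) := by linarith
        have h5 := Real.exp_le_exp.1 h4
        linarith
    rw [h1, ← htm, and_comm, hb', le_min_iff]
  by_cases hneg : b' < 0
  · have h0 : expMeasure 1 {x | x ≤ t' ∧ tm ρ x ≤ b} = 0 := by
      apply measure_mono_null _ exp_Iio0
      intro x hx
      by_contra hx0
      have hx0' : 0 ≤ x := not_lt.1 hx0
      have h1 := (hset x hx0').1 hx
      have h2 : Real.exp (-x) ≤ 1 := by rw [Real.exp_le_one_iff]; linarith
      have h3 : 1 < Real.exp (-b') := by rw [Real.one_lt_exp_iff]; linarith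
      nlinarith
    rw [h0, mul_zero, exp_Iic, if_neg (not_le.2 hneg), ENNReal.ofReal_zero]
  · have hb0 : 0 ≤ b' := not_lt.1 hneg
    have hbt : b' ≤ t := min_le_right _ _
    have h1 : 1 - Real.exp (-b') ≤ A := by
      have : Real.exp (-t) ≤ Real.exp (-b') := Real.exp_le_exp.2 (by linarith)
      linarith
    have hB0 : 0 ≤ 1 - Real.exp (-b') := by
      have : Real.exp (-b') ≤ 1 := by rw [Real.exp_le_one_iff]; linarith
      linarith
    set B := (1 - Real.exp (-b')) / ρ with hB
    have hBA : B ≤ A' := by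
      rw [hB, div_le_iff₀ hρpos, hρ]
      have : A' * (A / A') = A := by field_simp
      rw [this]; exact h1
    have hBnn : 0 ≤ B := div_nonneg hB0 hρpos.le
    set xb := -Real.log (1 - B) with hxb
    have hB1 : 0 < 1 - B := by linarith
    have hxb0 : 0 ≤ xb := by
      have := Real.log_nonpos hB1.le (by linarith)
      rw [hxb]; linarith
    have hexp : Real.exp (-xb) = 1 - B := by
      rw [hxb, neg_neg, Real.exp_log hB1]
    have hae : expMeasure 1 {x | x ≤ t' ∧ tm ρ x ≤ b} = expMeasure 1 (Set.Iic xb) := by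
      apply measure_congr
      have hnn : ∀ᵐ x ∂(expMeasure 1), 0 ≤ x := by
        rw [ae_iff]
        have : {a : ℝ | ¬ 0 ≤ a} = Set.Iio 0 := by ext a; simp
        rw [this]
        exact exp_Iio0
      filter_upwards [hnn] with x hx
      apply propext
      show (x ≤ t' ∧ tm ρ x ≤ b) ↔ x ≤ xb
      rw [hset x hx]
      constructor
      · intro h
        have h2 : 1 - Real.exp (-x) ≤ B := by
          rw [hB, le_div_iff₀ hρpos]; linarith
        have h3 : Real.exp (-xb) ≤ Real.exp (-x) := by rw [hexp]; linarith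
        have h4 := Real.exp_le_exp.1 h3
        linarith
      · intro h
        have h3 : Real.exp (-xb) ≤ Real.exp (-x) := Real.exp_le_exp.2 (by linarith)
        rw [hexp] at h3
        have h2 : 1 - Real.exp (-x) ≤ B := by linarith
        rw [hB, le_div_iff₀ hρpos] at h2
        linarith
    rw [hae, exp_Iic, exp_Iic, if_pos hxb0, if_pos hb0, hexp, ← ENNReal.ofReal_mul hρpos.le]
    congr 1
    have : 1 - (1 - B) = B := by ring
    rw [this, hB]
    field_simp

/-- the one-dimensional statement -/
theorem core (t t' : ℝ) (ht : 0 < t) (htt : t ≤ t') (B : Set ℝ) (hB : MeasurableSet B) (hBt : ∀ x ∈ B, x ≤ t) :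
    ENNReal.ofReal ((1 - Real.exp (-t)) / (1 - Real.exp (-t'))) *
      expMeasure 1 {x | x ≤ t' ∧ tm ((1 - Real.exp (-t)) / (1 - Real.exp (-t'))) x ∈ B} =
      expMeasure 1 B := by
  set ρ := (1 - Real.exp (-t)) / (1 - Real.exp (-t')) with hρ
  have hmeq : ENNReal.ofReal ρ • ((expMeasure 1).restrict (Set.Iic t')).map (tm ρ) = (expMeasure 1).restrict (Set.Iic t) := by
    have hfin : IsFiniteMeasure (ENNReal.ofReal ρ • ((expMeasure 1).restrict (Set.Iic t')).map (tm ρ)) := by
      constructor
      rw [Measure.smul_apply, smul_eq_mul]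
      exact ENNReal.mul_lt_top ENNReal.ofReal_lt_top (measure_lt_top _ _)
    refine Measure.ext_of_Iic _ _ (fun b => ?_)
    rw [Measure.smul_apply, smul_eq_mul, Measure.map_apply (meas_tm ρ) measurableSet_Iic,
      Measure.restrict_apply (meas_tm ρ measurableSet_Iic), Measure.restrict_apply measurableSet_Iic,
      Set.Iic_inter_Iic]
    have h := core_Iic t t' b ht htt
    rw [← hρ] at h
    rw [← h]
    congr 2
    ext x
    simp only [Set.mem_inter_iff, Set.mem_preimage, Set.mem_Iic]
    exact and_comm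
  have h1 := congrArg (fun ν : Measure ℝ => ν B) hmeq
  simp only [Measure.smul_apply, smul_eq_mul] at h1
  rw [Measure.map_apply (meas_tm ρ) hB, Measure.restrict_apply (meas_tm ρ hB), Measure.restrict_apply hB] at h1
  have h2 : B ∩ Set.Iic t = B := Set.inter_eq_left.2 (fun x hx => hBt x hx)
  rw [h2] at h1
  rw [← h1]
  congr 2
  ext x
  simp only [Set.mem_inter_iff, Set.mem_preimage, Set.mem_Iic]
  exact and_comm

/-- resampling of the coordinate `0` -/
theorem resample (μ : Measure ℝ) [IsProbabilityMeasure μ] :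
    ((μ.prod (Measure.infinitePi fun _ : ℕ => μ)).map (fun p : ℝ × (ℕ → ℝ) => Function.update p.2 0 p.1)) =
      Measure.infinitePi fun _ : ℕ => μ := by
  have hm : Measurable (fun p : ℝ × (ℕ → ℝ) => Function.update p.2 0 p.1) := by
    rw [measurable_pi_iff]
    intro i
    by_cases hi : i = 0
    · subst hi
      simp only [Function.update_self]
      exact measurable_fst
    · simp only [Function.update_of_ne hi]
      exact (measurable_pi_apply i).comp measurable_snd
  apply Measure.eq_infinitePi
  intro s B hB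
  rw [Measure.map_apply hm (MeasurableSet.pi s.countable_toSet (fun i _ => hB i))]
  by_cases h0 : 0 ∈ s
  · have hs : (fun p : ℝ × (ℕ → ℝ) => Function.update p.2 0 p.1) ⁻¹' (Set.pi (s : Set ℕ) B) =
        (B 0) ×ˢ (Set.pi ((s.erase 0 : Finset ℕ) : Set ℕ) B) := by
      ext ⟨x, E⟩
      simp only [Set.mem_preimage, Set.mem_pi, Set.mem_prod, Finset.coe_erase, Set.mem_sdiff, Finset.mem_coe, Set.mem_singleton_iff]
      constructor
      · intro h
        refine ⟨by simpa using h 0 h0, ?_⟩
        rintro i ⟨hi, hi0⟩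
        have := h i hi
        rwa [Function.update_of_ne hi0] at this
      · rintro ⟨h1, h2⟩ i hi
        by_cases hi0 : i = 0
        · subst hi0; simpa using h1
        · rw [Function.update_of_ne hi0]; exact h2 i ⟨hi, hi0⟩
    rw [hs, Measure.prod_prod, Measure.infinitePi_pi (μ := fun _ : ℕ => μ) (fun i _ => hB i), Finset.mul_prod_erase s (fun i => μ (B i)) h0]
  · have hs : (fun p : ℝ × (ℕ → ℝ) => Function.update p.2 0 p.1) ⁻¹' (Set.pi (s : Set ℕ) B) =
        Set.univ ×ˢ (Set.pi (s : Set ℕ) B) := by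
      ext ⟨x, E⟩
      simp only [Set.mem_preimage, Set.mem_pi, Set.mem_prod, Finset.mem_coe, Set.mem_univ, true_and]
      constructor
      · intro h i hi
        have hi0 : i ≠ 0 := fun h' => h0 (h' ▸ hi)
        have := h i hi
        rwa [Function.update_of_ne hi0] at this
      · intro h i hi
        have hi0 : i ≠ 0 := fun h' => h0 (h' ▸ hi)
        rw [Function.update_of_ne hi0]; exact h i hi
    rw [hs, Measure.prod_prod, measure_univ, one_mul, Measure.infinitePi_pi (μ := fun _ : ℕ => μ) (fun i _ => hB i)]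

end Pool.Agent.H727.FCTMM
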