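import Pool.Agent.H979.FC.Stm
import Pool.Agent.H727.FC.TmmCore

set_option autoImplicit false

open MeasureTheory ProbabilityTheory Finset
open scoped ENNReal NNReal

/-!
# Task TMM: transformation of the exponential law
-/

namespace Pool.Agent.H727

open Pool.Agent.H979.FR Pool.Agent.H979.FC

theorem fctmm_meas_upd : Measurable (fun p : ℝ × (ℕ → ℝ) => Function.update p.2 0 p.1) := by
  rw [measurable_pi_iff]
  intro i
  by_cases hi : i = 0
  · subst hi
    simp only [Function.update_self]
    exact measurable_fst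
  · simp only [Function.update_of_ne hi]
    exact (measurable_pi_apply i).comp measurable_snd

theorem fctmm_meas_TM (ρ : ℝ) : Measurable (fun E : ℕ → ℝ => TM ρ E) := by
  have h : (fun E : ℕ → ℝ => TM ρ E) =
      (fun p : ℝ × (ℕ → ℝ) => Function.update p.2 0 p.1) ∘ (fun E : ℕ → ℝ => (tm ρ (E 0), E)) := rfl
  rw [h]
  exact fctmm_meas_upd.comp (((FCTMM.meas_tm ρ).comp (measurable_pi_apply 0)).prodMk measurable_id)

theorem fctmm_resample : clockLaw =
    ((expMeasure 1).prod clockLaw).map (fun p : ℝ × (ℕ → ℝ) => Function.update p.2 0 p.1) :=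
  (FCTMM.resample (expMeasure 1)).symm

/-- **TMM** -/
theorem fc_tmm : S_TMM := by
  intro t t' ht htt H hH hHt
  set ρ := (1 - Real.exp (-t)) / (1 - Real.exp (-t')) with hρ
  have hS : MeasurableSet {E : ℕ → ℝ | E 0 ≤ t' ∧ TM ρ E ∈ H} :=
    (measurableSet_le (measurable_pi_apply 0) measurable_const).inter (fctmm_meas_TM ρ hH)
  have e1 : ∀ S : Set (ℕ → ℝ), MeasurableSet S → clockLaw S =
      ∫⁻ E, expMeasure 1 {x : ℝ | Function.update E 0 x ∈ S} ∂clockLaw := by
    intro S hS
    conv_lhs => rw [fctmm_resample]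
    rw [Measure.map_apply fctmm_meas_upd hS, Measure.prod_apply_symm (fctmm_meas_upd hS)]
    rfl
  rw [e1 _ hS, e1 H hH, ← lintegral_const_mul' _ _ ENNReal.ofReal_ne_top]
  refine lintegral_congr (fun E => ?_)
  have hB : MeasurableSet {x : ℝ | Function.update E 0 x ∈ H} :=
    (fctmm_meas_upd.comp (measurable_id.prodMk measurable_const)) hH
  have hBt : ∀ x ∈ {x : ℝ | Function.update E 0 x ∈ H}, x ≤ t := by
    intro x hx
    have h1 := hHt _ hx
    rwa [Function.update_self] at h1
  have h := FCTMM.core t t' ht htt {x : ℝ | Function.update E 0 x ∈ H} hB hBt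
  rw [← hρ] at h
  rw [← h]
  congr 2
  ext x
  show (Function.update E 0 x 0 ≤ t' ∧
      Function.update (Function.update E 0 x) 0 (tm ρ (Function.update E 0 x 0)) ∈ H) ↔
    (x ≤ t' ∧ Function.update E 0 (FCTMM.tm ρ x) ∈ H)
  rw [Function.update_self, Function.update_idem]
  rfl

/-- **TMD** -/
theorem fc_tmd : S_TMD := by
  intro t t' s ht htt hs hst
  set A := 1 - Real.exp (-t) with hA
  set A' := 1 - Real.exp (-t') with hA'
  have hApos : 0 < A := by
    have : Real.exp (-t) < 1 := by rw [Real.exp_lt_one_iff]; linarith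
    linarith
  have hAA : A ≤ A' := by
    have : Real.exp (-t') ≤ Real.exp (-t) := Real.exp_le_exp.2 (by linarith)
    linarith
  have hA'pos : 0 < A' := lt_of_lt_of_le hApos hAA
  set ρ := A / A' with hρ
  have hρpos : 0 < ρ := div_pos hApos hA'pos
  have hρ1 : ρ ≤ 1 := (div_le_one hA'pos).2 hAA
  have harg : 0 < 1 - ρ * (1 - Real.exp (-s)) := by
    have h1 : 0 < Real.exp (-s) := Real.exp_pos _
    nlinarith
  have hρA : ρ * A' = A := by rw [hρ]; field_simp
  have hes : Real.exp (-s) * Real.exp s = 1 := by rw [← Real.exp_add]; simp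
  have het : Real.exp (-t') * Real.exp t' = 1 := by rw [← Real.exp_add]; simp
  have hle : Real.exp s ≤ Real.exp t' := Real.exp_le_exp.2 hst
  have hdiff : Real.exp (t' - t) = Real.exp (-t) * Real.exp t' := by
    rw [← Real.exp_add]; congr 1; ring
  have key : (1 - ρ * (1 - Real.exp (-s))) * Real.exp s ≤ Real.exp (t' - t) := by
    have e1 : (1 - ρ * (1 - Real.exp (-s))) * Real.exp s = (1 - ρ) * Real.exp s + ρ := by
      linear_combination ρ * hes
    have e2 : Real.exp (t' - t) = (1 - ρ) * Real.exp t' + ρ := by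
      rw [hdiff]
      have e3 : Real.exp (-t) = 1 - ρ * (1 - Real.exp (-t')) := by
        rw [← hA', hρA, hA]; ring
      rw [e3]
      linear_combination ρ * het
    rw [e1, e2]
    have : (1 - ρ) * Real.exp s ≤ (1 - ρ) * Real.exp t' :=
      mul_le_mul_of_nonneg_left hle (by linarith)
    linarith
  have hlog := Real.log_le_log (mul_pos harg (Real.exp_pos s)) key
  rw [Real.log_mul harg.ne' (Real.exp_pos s).ne', Real.log_exp, Real.log_exp] at hlog
  show s - (-Real.log (1 - ρ * (1 - Real.exp (-s)))) ≤ t' - t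
  linarith

end Pool.Agent.H727
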